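import Pool.Agent.H85.BC.Basic

/-!
# Amplification of an isomorphism of corners to complementary corners
-/

set_option autoImplicit false
set_option linter.unusedSectionVars false

open scoped InnerProductSpace Topology

namespace Pool.Agent.H4.BC

open Pool.Agent.H85.BC

section
variable {H : Type} [NormedAddCommGroup H] [InnerProductSpace ℂ H] [CompleteSpace H]

/-- A column of partial isometries with initial projection `e` and final projections adding
up to `f`. -/
structure Col (N : VonNeumannAlgebra H) (e f : H →L[ℂ] H) {n : ℕ}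
    (v : Fin n → (H →L[ℂ] H)) : Prop where
  mem : ∀ i, v i ∈ N
  proj : IsStarProjection e
  one : ∀ i, star (v i) * v i = e
  orth : ∀ i j, i ≠ j → star (v i) * v j = 0
  sum : ∑ i, v i * star (v i) = f

/-- The element with matrix `X`. -/
noncomputable def asm {n : ℕ} (v : Fin n → (H →L[ℂ] H)) (X : Fin n → Fin n → (H →L[ℂ] H)) :
    H →L[ℂ] H := ∑ i, ∑ j, v i * X i j * star (v j)

/-- The matrix of an element. -/
noncomputable def ent {n : ℕ} (v : Fin n → (H →L[ℂ] H)) (x : H →L[ℂ] H) (i j : Fin n) :
    H →L[ℂ] H := star (v i) * x * v j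

namespace Col

variable {N : VonNeumannAlgebra H} {e f : H →L[ℂ] H} {n : ℕ} {v : Fin n → (H →L[ℂ] H)}

theorem mul_e (h : Col N e f v) (i : Fin n) : v i * e = v i := by
  have h1 := pi_mul_star_mul (v := v i) (by rw [h.one i]; exact h.proj)
  rwa [h.one i] at h1

theorem e_mul (h : Col N e f v) (i : Fin n) : e * star (v i) = star (v i) := by
  have h1 := congrArg star (h.mul_e i)
  rwa [star_mul, h.proj.isSelfAdjoint.star_eq] at h1

theorem f_mul (h : Col N e f v) (i : Fin n) : f * v i = v i := by
  rw [← h.sum, Finset.sum_mul, Finset.sum_eq_single i]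
  · rw [mul_assoc, h.one i, h.mul_e i]
  · intro j _ hj
    rw [mul_assoc, h.orth j i hj, mul_zero]
  · intro hi
    exact absurd (Finset.mem_univ i) hi

theorem star_f (h : Col N e f v) : star f = f := by
  rw [← h.sum, star_sum]
  refine Finset.sum_congr rfl (fun i _ => ?_)
  rw [star_mul, star_star]

theorem mul_f (h : Col N e f v) (i : Fin n) : star (v i) * f = star (v i) := by
  have h1 := congrArg star (h.f_mul i)
  rwa [star_mul, h.star_f] at h1

theorem e_mem (h : Col N e f v) (i : Fin n) : e ∈ N := by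
  rw [← h.one i]
  exact mul_mem (star_mem (h.mem i)) (h.mem i)

theorem ent_mem (h : Col N e f v) {x : H →L[ℂ] H} (hx : x ∈ N) (i j : Fin n) :
    ent v x i j ∈ corner N e := by
  refine mem_corner (mul_mem (mul_mem (star_mem (h.mem i)) hx) (h.mem j)) ?_ ?_
  · unfold ent
    rw [← mul_assoc, ← mul_assoc, h.e_mul i]
  · unfold ent
    rw [mul_assoc, h.mul_e j]

theorem asm_mem (h : Col N e f v) {X : Fin n → Fin n → (H →L[ℂ] H)}
    (hX : ∀ i j, X i j ∈ N) : asm v X ∈ corner N f := by
  refine mem_corner ?_ ?_ ?_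
  · unfold asm
    refine sum_mem' N _ _ (fun i _ => sum_mem' N _ _ (fun j _ => ?_))
    exact mul_mem (mul_mem (h.mem i) (hX i j)) (star_mem (h.mem j))
  · unfold asm
    rw [Finset.mul_sum]
    refine Finset.sum_congr rfl (fun i _ => ?_)
    rw [Finset.mul_sum]
    refine Finset.sum_congr rfl (fun j _ => ?_)
    rw [← mul_assoc, ← mul_assoc, h.f_mul i]
  · unfold asm
    rw [Finset.sum_mul]
    refine Finset.sum_congr rfl (fun i _ => ?_)
    rw [Finset.sum_mul]
    refine Finset.sum_congr rfl (fun j _ => ?_)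
    rw [mul_assoc, h.mul_f j]

theorem ent_asm (h : Col N e f v) (X : Fin n → Fin n → (H →L[ℂ] H)) (a b : Fin n) :
    ent v (asm v X) a b = e * X a b * e := by
  unfold ent asm
  rw [Finset.mul_sum, Finset.sum_mul, Finset.sum_eq_single a]
  · rw [Finset.mul_sum, Finset.sum_mul, Finset.sum_eq_single b]
    · calc star (v a) * (v a * X a b * star (v b)) * v b
          = (star (v a) * v a) * X a b * (star (v b) * v b) := by simp only [mul_assoc]
        _ = e * X a b * e := by rw [h.one a, h.one b]
    · intro j _ hj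
      calc star (v a) * (v a * X a j * star (v j)) * v b
          = (star (v a) * v a) * X a j * (star (v j) * v b) := by simp only [mul_assoc]
        _ = 0 := by rw [h.orth j b hj, mul_zero]
    · intro hb
      exact absurd (Finset.mem_univ b) hb
  · intro i _ hi
    rw [Finset.mul_sum, Finset.sum_mul]
    refine Finset.sum_eq_zero (fun j _ => ?_)
    calc star (v a) * (v i * X i j * star (v j)) * v b
        = (star (v a) * v i) * X i j * (star (v j) * v b) := by simp only [mul_assoc]
      _ = 0 := by rw [h.orth a i (Ne.symm hi), zero_mul, zero_mul]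
  · intro ha
    exact absurd (Finset.mem_univ a) ha

theorem asm_ent (h : Col N e f v) (x : H →L[ℂ] H) : asm v (ent v x) = f * x * f := by
  unfold asm ent
  conv_rhs => rw [← h.sum]
  rw [Finset.sum_mul, Finset.sum_mul]
  refine Finset.sum_congr rfl (fun i _ => ?_)
  rw [Finset.mul_sum]
  refine Finset.sum_congr rfl (fun j _ => ?_)
  simp only [mul_assoc]

theorem ent_mul (h : Col N e f v) {x y : H →L[ℂ] H} (hx : x * f = x) (i l : Fin n) :
    ent v (x * y) i l = ∑ j, ent v x i j * ent v y j l := by
  unfold ent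
  calc star (v i) * (x * y) * v l = star (v i) * (x * f * y) * v l := by rw [hx]
    _ = ∑ j, star (v i) * x * v j * (star (v j) * y * v l) := by
      rw [← h.sum, Finset.mul_sum, Finset.sum_mul, Finset.mul_sum, Finset.sum_mul]
      refine Finset.sum_congr rfl (fun j _ => ?_)
      simp only [mul_assoc]

theorem asm_mul (h : Col N e f v) {X Y : Fin n → Fin n → (H →L[ℂ] H)}
    (hX : ∀ i j, X i j * e = X i j) :
    asm v X * asm v Y = asm v (fun i l => ∑ j, X i j * Y j l) := by
  have h1 : ∀ i j, v i * X i j * star (v j) * asm v Y =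
      ∑ l, v i * (X i j * Y j l) * star (v l) := by
    intro i j
    unfold asm
    rw [Finset.mul_sum, Finset.sum_eq_single j]
    · rw [Finset.mul_sum]
      refine Finset.sum_congr rfl (fun l _ => ?_)
      calc v i * X i j * star (v j) * (v j * Y j l * star (v l))
          = v i * X i j * (star (v j) * v j) * (Y j l * star (v l)) := by
            simp only [mul_assoc]
        _ = v i * (X i j * e) * (Y j l * star (v l)) := by rw [h.one j]; simp only [mul_assoc]
        _ = v i * (X i j * Y j l) * star (v l) := by rw [hX i j]; simp only [mul_assoc]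
    · intro k _ hk
      rw [Finset.mul_sum]
      refine Finset.sum_eq_zero (fun l _ => ?_)
      calc v i * X i j * star (v j) * (v k * Y k l * star (v l))
          = v i * X i j * (star (v j) * v k) * (Y k l * star (v l)) := by
            simp only [mul_assoc]
        _ = 0 := by rw [h.orth j k (Ne.symm hk), mul_zero, zero_mul]
    · intro hj
      exact absurd (Finset.mem_univ j) hj
  conv_lhs => rw [asm]
  rw [Finset.sum_mul]
  conv_rhs => rw [asm]
  refine Finset.sum_congr rfl (fun i _ => ?_)
  rw [Finset.sum_mul, Finset.sum_congr rfl (fun j _ => h1 i j), Finset.sum_comm]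
  refine Finset.sum_congr rfl (fun l _ => ?_)
  rw [Finset.mul_sum, Finset.sum_mul]

theorem asm_star (X : Fin n → Fin n → (H →L[ℂ] H)) :
    star (asm v X) = asm v (fun i j => star (X j i)) := by
  unfold asm
  simp only [star_sum]
  rw [Finset.sum_comm]
  refine Finset.sum_congr rfl (fun i _ => ?_)
  refine Finset.sum_congr rfl (fun j _ => ?_)
  rw [star_mul, star_mul, star_star, mul_assoc]

theorem f_proj (h : Col N e f v) : IsStarProjection f := by
  refine ⟨?_, h.star_f⟩
  show f * f = f
  have h1 : ∀ i, f * (v i * star (v i)) = v i * star (v i) := fun i => by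
    rw [← mul_assoc, h.f_mul i]
  have h2 : f * ∑ i, v i * star (v i) = ∑ i, v i * star (v i) := by
    rw [Finset.mul_sum]
    exact Finset.sum_congr rfl (fun i _ => h1 i)
  rwa [h.sum] at h2

end Col

/-- Additivity of an isomorphism of corners over finite sums. -/
theorem iso_sum {N : VonNeumannAlgebra H} {p q : H →L[ℂ] H}
    {θ : (H →L[ℂ] H) → (H →L[ℂ] H)} (h : CornerIso N p q θ) {ι : Type*} (s : Finset ι)
    (x : ι → (H →L[ℂ] H)) (hx : ∀ i ∈ s, x i ∈ corner N p) :
    θ (∑ i ∈ s, x i) = ∑ i ∈ s, θ (x i) ∧ ∑ i ∈ s, x i ∈ corner N p := by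
  classical
  induction s using Finset.induction_on with
  | empty =>
    simp only [Finset.sum_empty]
    exact ⟨h.zero, ⟨zero_mem N, by simp⟩⟩
  | insert a s ha ih =>
    obtain ⟨h1, h2⟩ := ih (fun i hi => hx i (Finset.mem_insert_of_mem hi))
    have h3 := hx a (Finset.mem_insert_self a s)
    rw [Finset.sum_insert ha, Finset.sum_insert ha]
    exact ⟨by rw [h.add _ h3 _ h2, h1], corner_add h3 h2⟩

/-- A smaller corner. -/
theorem corner_le {N : VonNeumannAlgebra H} {p e x : H →L[ℂ] H} (hp : IsStarProjection p)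
    (he : IsStarProjection e) (hle : p * e = e) (hx : x ∈ corner N e) : x ∈ corner N p := by
  refine mem_corner hx.1 ?_ ?_
  · rw [← corner_left he hx, ← mul_assoc, hle]
  · rw [← corner_right he hx, mul_assoc, proj_mul_comm_of_le he hp hle]

section amp

variable {N : VonNeumannAlgebra H} {p q e f g : H →L[ℂ] H} {θ : (H →L[ℂ] H) → (H →L[ℂ] H)}
  {n : ℕ} {v w : Fin n → (H →L[ℂ] H)}

/-- The amplified map. -/
noncomputable def amp (θ : (H →L[ℂ] H) → (H →L[ℂ] H)) {n : ℕ} (v w : Fin n → (H →L[ℂ] H))
    (x : H →L[ℂ] H) : H →L[ℂ] H := asm w (fun i j => θ (ent v x i j))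

theorem amp_iso (hθ : CornerIso N p q θ) (hp : IsStarProjection p) (hq : IsStarProjection q)
    (hle : p * e = e) (i₀ : Fin n) (hv : Col N e f v) (hw : Col N (θ e) g w) :
    CornerIso N f g (amp θ v w) := by
  have he := hv.proj
  have heN := hv.e_mem i₀
  have hec : e ∈ corner N p := proj_mem_corner hp heN he hle
  have hev : ∀ x ∈ N, ∀ i j, ent v x i j ∈ corner N p := fun x hx i j =>
    corner_le hp he hle (hv.ent_mem hx i j)
  have hθm : ∀ x ∈ corner N e, θ e * θ x * θ e = θ x := by
    intro x hx
    have hx' := corner_le hp he hle hx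
    rw [← hθ.mul e hec x hx', corner_left he hx, ← hθ.mul x hx' e hec, corner_right he hx]
  have hent : ∀ x ∈ N, ∀ i j, ent w (amp θ v w x) i j = θ (ent v x i j) := by
    intro x hx i j
    unfold amp
    rw [hw.ent_asm]
    exact hθm _ (hv.ent_mem hx i j)
  have hpf := hv.f_proj
  have hpg := hw.f_proj
  refine ⟨?_, ?_, ?_, ?_, ?_, ?_, ?_⟩
  · intro x hx
    exact hw.asm_mem (fun i j => (hθ.maps _ (hev x hx.1 i j)).1)
  · intro x hx y hy hxy
    have h1 : ent v x = ent v y := by
      funext i j
      apply hθ.inj _ (hev x hx.1 i j) _ (hev y hy.1 i j)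
      rw [← hent x hx.1 i j, ← hent y hy.1 i j, hxy]
    rw [← hx.2, ← hy.2, ← hv.asm_ent, ← hv.asm_ent, h1]
  · intro y hy
    have h1 : ∀ i j, ∃ x ∈ corner N p, θ x = ent w y i j := by
      intro i j
      apply hθ.surj
      have h2 := hw.ent_mem hy.1 i j
      have hθe := hθ.maps e hec
      refine mem_corner h2.1 ?_ ?_
      · rw [← corner_left hw.proj h2, ← mul_assoc, corner_left hq hθe]
      · rw [← corner_right hw.proj h2, mul_assoc, corner_right hq hθe]
    choose X hX hXy using h1
    have h2 : ∀ i j, e * X i j * e = X i j := by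
      intro i j
      apply hθ.inj _ (corner_mul hp (corner_mul hp hec (hX i j)) hec) _ (hX i j)
      rw [hθ.mul _ (corner_mul hp hec (hX i j)) _ hec, hθ.mul _ hec _ (hX i j), hXy i j]
      exact (hw.ent_mem hy.1 i j).2
    refine ⟨asm v X, hv.asm_mem (fun i j => (hX i j).1), ?_⟩
    have h3 : (fun i j => θ (ent v (asm v X) i j)) = ent w y := by
      funext i j
      rw [hv.ent_asm, h2, hXy]
    unfold amp
    rw [h3, hw.asm_ent, hy.2]
  · intro x hx y hy
    have h1 : ∀ i j, θ (ent v (x + y) i j) = θ (ent v x i j) + θ (ent v y i j) := by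
      intro i j
      rw [← hθ.add _ (hev x hx.1 i j) _ (hev y hy.1 i j)]
      unfold ent
      rw [mul_add, add_mul]
    unfold amp asm
    rw [← Finset.sum_add_distrib]
    refine Finset.sum_congr rfl (fun i _ => ?_)
    rw [← Finset.sum_add_distrib]
    refine Finset.sum_congr rfl (fun j _ => ?_)
    beta_reduce
    rw [h1 i j, mul_add, add_mul]
  · intro c x hx
    have h1 : ∀ i j, θ (ent v (c • x) i j) = c • θ (ent v x i j) := by
      intro i j
      rw [← hθ.smul c _ (hev x hx.1 i j)]
      unfold ent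
      rw [mul_smul_comm, smul_mul_assoc]
    unfold amp asm
    rw [Finset.smul_sum]
    refine Finset.sum_congr rfl (fun i _ => ?_)
    rw [Finset.smul_sum]
    refine Finset.sum_congr rfl (fun j _ => ?_)
    beta_reduce
    rw [h1 i j, mul_smul_comm, smul_mul_assoc]
  · intro x hx y hy
    unfold amp
    rw [hw.asm_mul]
    · unfold asm
      refine Finset.sum_congr rfl (fun i _ => ?_)
      refine Finset.sum_congr rfl (fun l _ => ?_)
      have h1 : θ (ent v (x * y) i l) = ∑ j, θ (ent v x i j) * θ (ent v y j l) := by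
        rw [hv.ent_mul (corner_right hpf hx), (iso_sum hθ Finset.univ
          (fun j => ent v x i j * ent v y j l)
          (fun j _ => corner_mul hp (hev x hx.1 i j) (hev y hy.1 j l))).1]
        refine Finset.sum_congr rfl (fun j _ => ?_)
        exact hθ.mul _ (hev x hx.1 i j) _ (hev y hy.1 j l)
      beta_reduce
      rw [h1]
    · intro i j
      rw [← hθ.mul _ (hev x hx.1 i j) _ hec, corner_right he (hv.ent_mem hx.1 i j)]
  · intro x hx
    unfold amp
    rw [Col.asm_star]
    unfold asm
    refine Finset.sum_congr rfl (fun i _ => ?_)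
    refine Finset.sum_congr rfl (fun j _ => ?_)
    have h1 : θ (ent v (star x) i j) = star (θ (ent v x j i)) := by
      rw [← hθ.star _ (hev x hx.1 j i)]
      unfold ent
      rw [star_mul, star_mul, star_star, mul_assoc]
    beta_reduce
    rw [h1]

/-- The amplified map on the first corner. -/
theorem amp_corner (hθ : CornerIso N p q θ) (hp : IsStarProjection p)
    (hle : p * e = e) (i₀ : Fin n) (hv : Col N e f v) (_hw : Col N (θ e) g w)
    {x : H →L[ℂ] H} (hx : x ∈ corner N e) :
    amp θ v w (v i₀ * x * star (v i₀)) = w i₀ * θ x * star (w i₀) := by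
  have he := hv.proj
  unfold amp asm
  rw [Finset.sum_eq_single i₀]
  · rw [Finset.sum_eq_single i₀]
    · have h1 : ent v (v i₀ * x * star (v i₀)) i₀ i₀ = x := by
        unfold ent
        calc star (v i₀) * (v i₀ * x * star (v i₀)) * v i₀
            = (star (v i₀) * v i₀) * x * (star (v i₀) * v i₀) := by simp only [mul_assoc]
          _ = x := by rw [hv.one i₀, hx.2]
      beta_reduce
      rw [h1]
    · intro j _ hj
      have h1 : ent v (v i₀ * x * star (v i₀)) i₀ j = 0 := by
        unfold ent
        calc star (v i₀) * (v i₀ * x * star (v i₀)) * v j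
            = (star (v i₀) * v i₀) * x * (star (v i₀) * v j) := by simp only [mul_assoc]
          _ = 0 := by rw [hv.orth i₀ j (Ne.symm hj), mul_zero]
      beta_reduce
      rw [h1, hθ.zero, mul_zero, zero_mul]
    · intro h
      exact absurd (Finset.mem_univ i₀) h
  · intro i _ hi
    refine Finset.sum_eq_zero (fun j _ => ?_)
    have h1 : ent v (v i₀ * x * star (v i₀)) i j = 0 := by
      unfold ent
      calc star (v i) * (v i₀ * x * star (v i₀)) * v j
          = (star (v i) * v i₀) * x * (star (v i₀) * v j) := by simp only [mul_assoc]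
        _ = 0 := by rw [hv.orth i i₀ hi, zero_mul, zero_mul]
    beta_reduce
    rw [h1, hθ.zero, mul_zero, zero_mul]
  · intro h
    exact absurd (Finset.mem_univ i₀) h

theorem amp_spatial (hθ : CornerIso N p q θ) (hp : IsStarProjection p)
    (hle : p * e = e) (i₀ : Fin n) (hv : Col N e f v) (hw : Col N (θ e) g w)
    (hsp : Spatial N f g (amp θ v w)) : Spatial N e (θ e) θ := by
  have he := hv.proj
  have heN := hv.e_mem i₀
  have hec : e ∈ corner N p := proj_mem_corner hp heN he hle
  have hee : e ∈ corner N e := p_mem_corner heN he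
  have hpe := hw.proj
  obtain ⟨u, huN, hu1, hu2, hu3⟩ := hsp
  set a := v i₀ with ha
  set b := w i₀ with hb
  have ha1 : star a * a = e := hv.one i₀
  have hb1 : star b * b = θ e := hw.one i₀
  have haf : f * a = a := hv.f_mul i₀
  have hafs : star a * f = star a := hv.mul_f i₀
  have hae : a * e = a := hv.mul_e i₀
  have hbe : b * θ e = b := hw.mul_e i₀
  have hbb : θ e * star b = star b := hw.e_mul i₀
  have key : ∀ x ∈ corner N e, u * (a * x * star a) * star u = b * θ x * star b := by
    intro x hx
    have h1 : a * x * star a ∈ corner N f := by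
      refine mem_corner (mul_mem (mul_mem (hv.mem i₀) hx.1) (star_mem (hv.mem i₀))) ?_ ?_
      · rw [← mul_assoc, ← mul_assoc, haf]
      · rw [mul_assoc, hafs]
    rw [← hu3 _ h1, amp_corner hθ hp hle i₀ hv hw hx]
  have hθm : ∀ x ∈ corner N e, θ e * θ x * θ e = θ x := by
    intro x hx
    have hx' := corner_le hp he hle hx
    rw [← hθ.mul e hec x hx', corner_left he hx, ← hθ.mul x hx' e hec, corner_right he hx]
  have key2 : ∀ x ∈ corner N e,
      (star b * u * a) * x * star (star b * u * a) = θ x := by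
    intro x hx
    calc (star b * u * a) * x * star (star b * u * a)
        = star b * (u * (a * x * star a) * star u) * b := by
          simp only [star_mul, star_star, mul_assoc]
      _ = (star b * b) * θ x * (star b * b) := by rw [key x hx]; simp only [mul_assoc]
      _ = θ x := by rw [hb1, hθm x hx]
  have hbb2 : b * star b = u * (a * star a) * star u := by
    have h1 := key e hee
    rw [hae, hbe] at h1
    exact h1.symm
  refine ⟨star b * u * a, ?_, ?_, ?_, fun x hx => (key2 x hx).symm⟩
  · exact mul_mem (mul_mem (star_mem (hw.mem i₀)) huN) (hv.mem i₀)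
  · calc star (star b * u * a) * (star b * u * a)
        = star a * star u * (b * star b) * (u * a) := by
          simp only [star_mul, star_star, mul_assoc]
      _ = star a * (star u * u) * a * (star a * (star u * u) * a) := by
          rw [hbb2]; simp only [mul_assoc]
      _ = e := by
          rw [hu1, hafs, ha1, he.isIdempotentElem.eq]
  · have h1 := key2 e hee
    have h2 : star b * u * a * e = star b * u * a := by rw [mul_assoc, hae]
    rw [h2] at h1
    exact h1

end amp

theorem exists_col {N : VonNeumannAlgebra H} {ξ : H} (hPART : T_PART H) (hEQV : T_EQV H)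
    (hN : IsIIOneFactor N ξ) {e f : H →L[ℂ] H} (heN : e ∈ N) (he : IsStarProjection e)
    (hfN : f ∈ N) (hf : IsStarProjection f) {n : ℕ} (hn : (n : ℝ) * ‖e ξ‖ ^ 2 = ‖f ξ‖ ^ 2) :
    ∃ v : Fin n → (H →L[ℂ] H), Col N e f v := by
  obtain ⟨c, hc, hco, hcs⟩ := hPART N ξ hN f hfN hf n (fun _ => ‖e ξ‖ ^ 2)
    (fun _ => sq_nonneg _) (by simpa using hn)
  have h1 : ∀ i, ∃ v ∈ N, star v * v = e ∧ v * star v = c i := by
    intro i
    refine hEQV N ξ hN.traceVector hN.factor e heN he (c i) (hc i).1 (hc i).2.1 ?_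
    exact ((pow_left_inj₀ (norm_nonneg _) (norm_nonneg _) two_ne_zero).1 (hc i).2.2).symm
  choose v hvN hv1 hv2 using h1
  refine ⟨v, hvN, he, hv1, ?_, ?_⟩
  · intro i j hij
    have ha : ∀ k, v k * (star (v k) * v k) = v k := fun k =>
      pi_mul_star_mul (by rw [hv1 k]; exact he)
    have hb : ∀ k, c k * v k = v k := fun k => by
      rw [← hv2 k, mul_assoc, ha k]
    have hb' : ∀ k, star (v k) * c k = star (v k) := fun k => by
      have h2 := congrArg star (hb k)
      rwa [star_mul, (hc k).2.1.isSelfAdjoint.star_eq] at h2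
    calc star (v i) * v j = star (v i) * c i * (c j * v j) := by rw [hb', hb]
      _ = star (v i) * (c i * c j) * v j := by simp only [mul_assoc]
      _ = 0 := by rw [hco i j hij, mul_zero, zero_mul]
  · rw [Finset.sum_congr rfl (fun i _ => hv2 i), hcs]

theorem pf_AMP (hNM : T_NM H) (hHALF : T_HALF H) (hPART : T_PART H) (hEQV : T_EQV H)
    (hSCP : T_SCP H) : T_AMP H := by
  intro N ξ hN p hpN hp hp0 q hqN hq hq0 θ hθ
  have hξ := hN.traceVector
  have hnm : NoMin N 1 := hNM N ξ hN
  have h1N : (1 : H →L[ℂ] H) ∈ N := one_mem N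
  have h1p : IsStarProjection (1 : H →L[ℂ] H) := ⟨by show (1 : H →L[ℂ] H) * 1 = 1; simp, by
    show star (1 : H →L[ℂ] H) = 1; simp⟩
  set P : ℝ := ‖p ξ‖ ^ 2 with hP
  set Q : ℝ := ‖q ξ‖ ^ 2 with hQ
  have hPpos : 0 < P := pow_pos (hξ.norm_pos_apply hpN hp0) 2
  have hQpos : 0 < Q := pow_pos (hξ.norm_pos_apply hqN hq0) 2
  obtain ⟨n, hn⟩ := exists_nat_gt (1 / (P + Q))
  have hn0 : (0 : ℝ) < n := lt_trans (by positivity) hn
  have hn0' : 0 < n := by exact_mod_cast hn0
  have hn1 : 1 ≤ n * (P + Q) := by
    rw [div_lt_iff₀ (by positivity)] at hn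
    exact hn.le
  set s : ℝ := P / (n * (P + Q)) with hs
  have hs0 : 0 < s := by positivity
  have hsP : s ≤ P := by
    rw [hs]
    exact div_le_self hPpos.le hn1
  obtain ⟨e, heN, he, hle, hes⟩ := hHALF N ξ hξ N (fun x hx => hx) 1 h1N h1p hnm p hpN hp
    (one_mul p) s hs0.le hsP
  have he0 : e ≠ 0 := by
    intro hc
    rw [hc] at hes
    simp at hes
    linarith
  have hθeP : IsStarProjection (θ e) := hθ.map_proj hp heN he hle
  have hθeN : θ e ∈ N := (hθ.maps e (proj_mem_corner hp heN he hle)).1
  have hθe : ‖θ e ξ‖ ^ 2 * P = Q * s := by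
    have h1 := hSCP N ξ hN p hpN hp q hqN hq θ hθ e heN he hle
    rw [hes] at h1
    exact h1
  have h1ξ : ‖(1 : H →L[ℂ] H) ξ‖ ^ 2 = 1 := by
    rw [ContinuousLinearMap.one_apply, hξ.norm_eq]
    norm_num
  have hns : (n : ℝ) * s = P / (P + Q) := by
    rw [hs]
    field_simp
  have hns1 : (n : ℝ) * s < 1 := by
    rw [hns, div_lt_one (by positivity)]
    linarith
  obtain ⟨f, hfN, hf, _, hfs⟩ := hHALF N ξ hξ N (fun x hx => hx) 1 h1N h1p hnm 1 h1N h1p
    (one_mul 1) (n * s) (by positivity) (by rw [h1ξ]; exact hns1.le)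
  have hgN : 1 - f ∈ N := sub_mem h1N hfN
  have hg : IsStarProjection (1 - f) := proj_sub hf h1p (one_mul f)
  have hgs : ‖(1 - f) ξ‖ ^ 2 = 1 - n * s := by
    rw [norm_sq_sub_proj ξ hf h1p (one_mul f), h1ξ, hfs]
  obtain ⟨v, hv⟩ := exists_col hPART hEQV hN heN he hfN hf (n := n) (by rw [hes, hfs])
  have hθe2 : (n : ℝ) * ‖θ e ξ‖ ^ 2 = 1 - n * s := by
    have h2 : ‖θ e ξ‖ ^ 2 = Q * s / P := by
      rw [eq_div_iff hPpos.ne', hθe]
    rw [h2, hns, hs]
    field_simp
    ring
  obtain ⟨w, hw⟩ := exists_col hPART hEQV hN hθeN hθeP hgN hg (n := n) (by rw [hgs, hθe2])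
  refine ⟨e, heN, he, he0, hle, f, hfN, hf, ?_, ?_, amp θ v w,
    amp_iso hθ hp hq hle ⟨0, hn0'⟩ hv hw, amp_spatial hθ hp hle ⟨0, hn0'⟩ hv hw⟩
  · intro hc
    rw [hc] at hfs
    simp at hfs
    rcases hfs with h | h
    · exact hn0'.ne' (by exact_mod_cast h)
    · exact hs0.ne' h
  · intro hc
    rw [hc, h1ξ] at hfs
    linarith

end

end Pool.Agent.H4.BC
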